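import Pool.Agent.Lib.MP_a0a9ec_co.Stab
import Pool.Agent.Lib.MP_a0a9ec_co.Transfer

/-!
# Wegner's problem: a finitely stable packing of the plane in which every member has 11 neighbours

The body is an explicit convex hexagon with one angle of 36 degrees; the packing consists of the
ten rotated copies of the hexagon around each point of an explicit lattice.
-/

open Pool.Agent.MP_a0a9ec_co

/-- There are a convex body `K` in the Euclidean plane and a nonempty finitely stable packing `𝒞`
of congruent copies of `K` in which every member has exactly 11 neighbours. -/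
theorem Pool.Agent.Results.MP_a0a9ec_co.Eleven.result :
    ∃ K : Set (EuclideanSpace ℝ (Fin 2)), IsConvexBody K ∧
      ∃ 𝒞 : Set (Set (EuclideanSpace ℝ (Fin 2))), 𝒞.Nonempty ∧ IsPacking 𝒞 ∧
        (∀ C ∈ 𝒞, Congruent K C) ∧ FinitelyStable 𝒞 ∧
        ∀ C ∈ 𝒞, (neighbours 𝒞 C).ncard = 11 := by
  set Φ : ℂ ≃ₗᵢ[ℝ] EuclideanSpace ℝ (Fin 2) := Complex.orthonormalBasisOneI.repr with hΦ
  refine ⟨Φ '' KK, KK_convexBody.map Φ,
    (fun C : Set ℂ => Φ '' C) '' Set.range body, ?_, range_isPacking.map Φ, ?_,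
    range_finitelyStable.map Φ, ?_⟩
  · exact ⟨_, body (0, 0, 0), ⟨_, rfl⟩, rfl⟩
  · rintro _ ⟨_, ⟨i, rfl⟩, rfl⟩
    exact (congruent_body i).map Φ
  · rintro _ ⟨_, ⟨i, rfl⟩, rfl⟩
    rw [neighbours_map, Set.ncard_image_of_injective _ (image_inj Φ)]
    exact neighbours_body i
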